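import Pool.Agent.H27.BG.BSp
import Pool.Agent.H29.DW.BS

/-!
# The bound for the integral over all positions
-/

set_option autoImplicit false
set_option linter.unusedVariables false
set_option linter.unusedSectionVars false

open NumberField NumberField.InfinitePlace NumberField.Units
  NumberField.Units.dirichletUnitTheorem MeasureTheory Set Filter Complex
open scoped nonZeroDivisors ENNReal

namespace Pool.Agent.H27.BG

open Pool.Agent.H25.HK Pool.Agent.H23.LB Pool.Agent.H23.LC Pool.Agent.H29.DW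
  Pool.Agent.H23.BG
open Pool.Agent.H28.RC (Rep ft idl)
open Pool.Agent.H29.TC (dvs cq LC Gn MC)

open scoped Classical in
/-- (BS) the bound for the integral over all positions. -/
theorem pf_F_BS (hIN : F_IN) (hBB : P_BB) (hMS : F_MS) (hPB : V_PB) (hTH : T_TH) (hYC : T_YC)
    (hFD : T_FD) (hCG : U_CG) : Pool.Agent.H23.BG.F_BS := by
  intro n hn0 ε κ hε hε1 hκ0 hκ
  obtain ⟨C₅, hC₅, hpiece⟩ := piece hIN hBB hPB hTH hYC hFD hCG n hn0 (ε / 16) (by positivity)
    (by linarith)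
  have hκ1 : κ ≤ 1 := by linarith
  set S₀ : ℝ := Real.exp (ε / 16 * n) * (1 - Real.exp (-(ε / 16)))⁻¹ with hS₀
  have hexp1 : Real.exp (-(ε / 16)) < 1 := by
    rw [Real.exp_lt_one_iff]
    linarith
  have hS₀0 : 0 ≤ S₀ := by
    rw [hS₀]
    have : 0 < 1 - Real.exp (-(ε / 16)) := by linarith
    positivity
  refine ⟨C₅ * Real.exp (3 * n) * S₀ * 3 ^ n, by positivity, ?_⟩
  intro K _ _ hn f hf χ hχ ι _ M hM cp H X B v hP hX hX2 hB hv
  have hH : ∀ v, 1 ≤ H v := fun v => hP.one v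
  have hHH := one_le_HH hH
  have hNf : 1 ≤ Nf K f := by
    unfold Nf
    have h : Ideal.absNorm f ≠ 0 := fun h => hf (Ideal.absNorm_eq_zero_iff.1 h)
    exact_mod_cast Nat.one_le_iff_ne_zero.2 h
  have hd : 1 ≤ |(discr K : ℝ)| := by
    have h : (1 : ℤ) ≤ |discr K| := Int.one_le_abs (discr_ne_zero K)
    have h2 : ((1 : ℤ) : ℝ) ≤ ((|discr K| : ℤ) : ℝ) := by exact_mod_cast h
    simpa using h2
  have hcw : 0 ≤ cw K := by unfold cw; positivity
  have hX0 : 0 < X := by linarith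
  set d : ℝ := |(discr K : ℝ)| with hdd
  set N : ℝ := Nf K f with hNN
  set h : ℝ := HH H with hhh
  have hd0 : 0 < d := by linarith
  have hN0 : 0 < N := by linarith
  have hh0 : 0 < h := by linarith
  set Q : ℝ := d * N * h with hQ
  have hQ0 : 0 < Q := by
    rw [hQ]
    positivity
  set W : ℝ := C₅ * B * cw K * d ^ (1 / 2 : ℝ) * Q ^ (ε / 16) *
    (Real.exp (3 * n) * X ^ κ * Q ^ (ε / 16) * Q ^ (ε / 16)) *
      (d ^ (-(1 / 4) : ℝ) * h ^ (-(1 / 2) : ℝ) * N ^ (1 / 4 - 1 / (16 * (n : ℝ)))) with hW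
  have hW0 : 0 ≤ W := by
    rw [hW]
    positivity
  set F : ι → logSpace K × ℝ × (InfinitePlace K → ℝ) → ℝ≥0∞ := fun c u =>
    ENNReal.ofReal ‖∑' x : {x : K // x ∈ M c ∧ x ≠ 0}, cg χ (M c) x *
      v (Ideal.absNorm (idl K (M c) x)) *
        Wg cp H pb x (yM K (M c) u.2.1 (zs true u.1)) (om true u.2.2)‖ with hF
  -- the support
  have hsupp : ∀ c u, (n : ℝ) < u.2.1 → F c u = 0 := by
    intro c u hu
    have h1 := (hMS K (M c) cp H pb (cg χ (M c)) true (hM.1 c) hP (fun v => ⟨1, pb_zero K v⟩)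
      ⟨1, (hCG K f χ (M c) hf (hM.1 c)).2.1⟩).2.2.1
    rw [hF]
    simp only
    have h2 : ∀ x : {x : K // x ∈ M c ∧ x ≠ 0}, cg χ (M c) x *
        v (Ideal.absNorm (idl K (M c) x)) *
          Wg cp H pb x (yM K (M c) u.2.1 (zs true u.1)) (om true u.2.2) = 0 := by
      intro x
      have h3 : Wg cp H pb x.1 (yM K (M c) u.2.1 (zs true u.1)) (om true u.2.2) = 0 := by
        by_contra h4
        have h5 := (h1 (zs true u.1) u.2.1 u.2.2 x.1 x.2.1 h4).2
        rw [hn] at h5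
        linarith
      rw [h3, mul_zero]
    simp only [h2, tsum_zero, norm_zero, ENNReal.ofReal_zero]
  -- the pieces
  set sg : ℕ → ℝ := fun i => Real.exp (ε / 16 * ((n : ℝ) - i)) with hsg
  have hpc : ∀ i : ℕ, ∑ c, ∫⁻ u in Sp' K ((n : ℝ) - i), F c u ≤
      ENNReal.ofReal (W * sg i) := by
    intro i
    set τ : ℝ := (n : ℝ) - i with hτ
    have hτn : τ ≤ n := by
      rw [hτ]
      have : (0 : ℝ) ≤ i := Nat.cast_nonneg i
      linarith
    set σ : ℝ := if Real.exp (-τ) / (Real.sqrt d * h) ≤ N ^ (1 / 2 : ℝ) then κ else 1 with hσ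
    have hσ' : σ = κ ∨ σ = 1 := by
      rw [hσ]
      split_ifs
      · exact Or.inl rfl
      · exact Or.inr rfl
    have h1 := hpiece κ hκ0 hκ1 K hn f hf χ hχ ι M hM cp H X B v hP hX hB hv τ σ hσ'
    have h2 := real_piece (n := n) hn0 (κ := κ) (e := ε / 16) (X := X) (τ := τ) (d := d) (N := N)
      (h := h) hκ0 hκ1 (by positivity) (by linarith) hd hNf hHH hX hX2 hτn σ hσ
    refine h1.trans (ENNReal.ofReal_le_ofReal ?_)
    have e2 : (d * N * h * Real.exp |τ|) ^ (ε / 16) =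
        Q ^ (ε / 16) * Real.exp (ε / 16 * |τ|) := by
      rw [Real.mul_rpow (by positivity) (by positivity), ← Real.exp_mul, mul_comm |τ|]
    have e3 : Psi n N (Vt K H τ) =
        (if Real.exp (-τ) / (Real.sqrt d * h) ≤ N ^ (1 / 2 : ℝ) then
        (Real.exp (-τ) / (Real.sqrt d * h)) ^ (1 / 2 : ℝ) * N ^ (1 / 4 - 1 / (16 * (n : ℝ)))
        else (Real.exp (-τ) / (Real.sqrt d * h)) ^ (5 / 4 : ℝ) *
          N ^ (-(1 / 8) - 1 / (16 * (n : ℝ)))) := by
      unfold Psi Vt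
      rfl
    rw [e2, e3]
    calc C₅ * B * cw K * d ^ (1 / 2 : ℝ) * (X ^ σ * Real.exp (τ * (1 / 2 + σ)) *
          (Q ^ (ε / 16) * Real.exp (ε / 16 * |τ|)) * _)
        = (C₅ * B * cw K * d ^ (1 / 2 : ℝ) * Q ^ (ε / 16)) *
          (X ^ σ * Real.exp (τ * (1 / 2 + σ)) * Real.exp (ε / 16 * |τ|) * _) := by ring
      _ ≤ (C₅ * B * cw K * d ^ (1 / 2 : ℝ) * Q ^ (ε / 16)) * _ :=
          mul_le_mul_of_nonneg_left h2 (by positivity)
      _ = W * sg i := by
          rw [hW, hsg]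
          simp only
          rw [← hτ]
          ring
  -- the sum
  have hsum : ∑ c, ∫⁻ u in Fd K ×ˢ (univ : Set ℝ) ×ˢ An K, F c u ≤
      ENNReal.ofReal (W * S₀) := by
    calc ∑ c, ∫⁻ u in Fd K ×ˢ (univ : Set ℝ) ×ˢ An K, F c u
        ≤ ∑ c, ∑' i : ℕ, ∫⁻ u in Sp' K ((n : ℝ) - i), F c u :=
          Finset.sum_le_sum fun c _ => cover hn (F c) (hsupp c)
      _ = ∑' i : ℕ, ∑ c, ∫⁻ u in Sp' K ((n : ℝ) - i), F c u :=
          (Summable.tsum_finsetSum fun c _ => ENNReal.summable).symm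
      _ ≤ ∑' i : ℕ, ENNReal.ofReal (W * sg i) := ENNReal.tsum_le_tsum hpc
      _ = ENNReal.ofReal (W * S₀) := by
          have h1 : ∀ i : ℕ, W * sg i = (W * Real.exp (ε / 16 * n)) *
              Real.exp (-(ε / 16)) ^ i := by
            intro i
            have e9 : sg i = Real.exp (ε / 16 * n) * Real.exp (-(ε / 16)) ^ i := by
              rw [hsg]
              simp only
              rw [← Real.exp_nat_mul, ← Real.exp_add]
              congr 1
              ring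
            rw [e9, ← mul_assoc]
          have h2 : Summable (fun i : ℕ => (W * Real.exp (ε / 16 * n)) *
              Real.exp (-(ε / 16)) ^ i) :=
            (summable_geometric_of_lt_one (Real.exp_pos _).le hexp1).mul_left _
          simp only [h1]
          rw [← ENNReal.ofReal_tsum_of_nonneg (fun i => by positivity) h2, tsum_mul_left,
            tsum_geometric_of_lt_one (Real.exp_pos _).le hexp1, hS₀]
          congr 1
          ring
  have hfin := fin_num (n := n) hε hε1 hκ0 hκ hX hd hNf hHH hX2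
  refine hsum.trans (ENNReal.ofReal_le_ofReal ?_)
  have hQ1 : 1 ≤ Q := by
    rw [hQ]
    exact one_le_mul_of_one_le_of_one_le (one_le_mul_of_one_le_of_one_le hd hNf) hHH
  have e5 : d ^ (1 / 2 : ℝ) * d ^ (-(1 / 4) : ℝ) = d ^ (1 / 4 : ℝ) := by
    rw [← Real.rpow_add hd0]
    norm_num
  have h7 : Q ^ (ε / 2) ≤ Q ^ ε := Real.rpow_le_rpow_of_exponent_le hQ1 (by linarith)
  calc W * S₀ = (C₅ * Real.exp (3 * n) * S₀ * B * cw K * (h ^ (-(1 / 2) : ℝ) *
        N ^ (1 / 4 - 1 / (16 * (n : ℝ))))) * (d ^ (1 / 2 : ℝ) * d ^ (-(1 / 4) : ℝ)) *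
          (Q ^ (ε / 16) * (X ^ κ * Q ^ (ε / 16) * Q ^ (ε / 16))) := by
        rw [hW]
        ring
    _ ≤ (C₅ * Real.exp (3 * n) * S₀ * B * cw K * (h ^ (-(1 / 2) : ℝ) *
        N ^ (1 / 4 - 1 / (16 * (n : ℝ))))) * (d ^ (1 / 2 : ℝ) * d ^ (-(1 / 4) : ℝ)) *
          (3 ^ n * Q ^ ε) := by
        refine mul_le_mul_of_nonneg_left (hfin.trans ?_) (by positivity)
        exact mul_le_mul_of_nonneg_left h7 (by positivity)
    _ = _ := by
        rw [e5]
        ring

end Pool.Agent.H27.BG
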