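import Pool.Agent.H23.BG.TargetsF
import Pool.Agent.H56.DW.BP

/-!
# The bound for the first sum
-/

set_option autoImplicit false
set_option linter.unusedVariables false
set_option linter.unusedSectionVars false

open NumberField NumberField.InfinitePlace NumberField.Units
  NumberField.Units.dirichletUnitTheorem MeasureTheory Set Filter Complex
open scoped nonZeroDivisors ENNReal

namespace Pool.Agent.H27.BG

open Pool.Agent.H25.HK Pool.Agent.H23.LB Pool.Agent.H23.LC Pool.Agent.H29.DW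
  Pool.Agent.H23.BG
open Pool.Agent.H28.RC (Rep ft idl)
open Pool.Agent.H29.TC (dvs cq LC Gn MC)

section

variable {K : Type} [Field K] [NumberField K]

theorem Hp2_one_le (cp : InfinitePlace K → ℂ) (v : InfinitePlace K) : 1 ≤ Hp2 cp v := by
  unfold Hp2
  exact Real.one_le_rpow (le_max_left _ _) (by norm_num)

theorem Hp2_sq (cp : InfinitePlace K → ℂ) (v : InfinitePlace K) :
    Hp2 cp v ^ 2 = max 1 ‖cp v‖ := by
  unfold Hp2
  rw [← Real.rpow_natCast, ← Real.rpow_mul (le_trans zero_le_one (le_max_left _ _))]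
  norm_num

theorem Pw_cpar (k : InfinitePlace K → ℤ) (ν : InfinitePlace K → ℝ) (t : ℝ) :
    Pw (cpar k ν t) (Hp2 (cpar k ν t)) := by
  refine ⟨fun v => Hp2_one_le _ v, fun v => ?_, fun v hv => ?_⟩
  · rw [Hp2_sq]
    exact le_max_right _ _
  · have h1 : v.IsReal := (rv_iff v).1 hv
    unfold cpar
    rw [if_pos h1]
    exact Complex.ofReal_im _

/-- `C_∞ ≤ 3 ^ n (∏ H_v ^ e_v) ^ 2` -/
theorem Ci_le2 {n : ℕ} (hn : Module.finrank ℚ K = n) (k : InfinitePlace K → ℤ)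
    (ν : InfinitePlace K → ℝ) (t : ℝ)
    (hk : ∀ v : InfinitePlace K, v.IsReal → k v = 0 ∨ k v = 1) :
    Ci k ν t ≤ 3 ^ n * HH (Hp2 (cpar k ν t)) ^ 2 := by
  unfold Ci HH
  rw [← sum_mult hn, ← Finset.prod_pow_eq_pow_sum, ← Finset.prod_pow, ← Finset.prod_mul_distrib]
  refine Finset.prod_le_prod (fun v _ => by positivity) fun v _ => ?_
  rw [← pow_mul, mul_comm v.mult 2, pow_mul, Hp2_sq, ← mul_pow]
  refine pow_le_pow_left₀ (by positivity) (le_norm_cpar k ν t hk v) _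

/-- `∏ H_v ^ e_v ≤ 2 ^ n C_∞ ^ (1/2)` -/
theorem HH_le2 {n : ℕ} (hn : Module.finrank ℚ K = n) (k : InfinitePlace K → ℤ)
    (ν : InfinitePlace K → ℝ) (t : ℝ) :
    HH (Hp2 (cpar k ν t)) ≤ 2 ^ n * Ci k ν t ^ (1 / 2 : ℝ) := by
  have h0 : ∀ v : InfinitePlace K, 0 ≤ 1 + |t - ν v| + |(k v : ℝ)| := fun v => by positivity
  have h1 : HH (Hp2 (cpar k ν t)) ^ 2 ≤ 2 ^ n * Ci k ν t := by
    unfold Ci HH
    rw [← sum_mult hn, ← Finset.prod_pow_eq_pow_sum, ← Finset.prod_pow,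
      ← Finset.prod_mul_distrib]
    refine Finset.prod_le_prod (fun v _ => ?_) fun v _ => ?_
    · have := Hp2_one_le (cpar k ν t) v
      positivity
    · rw [← pow_mul, mul_comm v.mult 2, pow_mul, Hp2_sq, ← mul_pow]
      refine pow_le_pow_left₀ (le_trans zero_le_one (le_max_left _ _)) (max_le ?_ ?_) _
      · have := abs_nonneg (t - ν v)
        have := abs_nonneg (k v : ℝ)
        linarith
      · refine (norm_cpar_le k ν t v).trans ?_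
        linarith
  have h2 : 0 ≤ HH (Hp2 (cpar k ν t)) :=
    le_trans zero_le_one (one_le_HH fun v => Hp2_one_le _ v)
  have h3 : HH (Hp2 (cpar k ν t)) = (HH (Hp2 (cpar k ν t)) ^ 2) ^ (1 / 2 : ℝ) := by
    rw [← Real.rpow_natCast, ← Real.rpow_mul h2]
    norm_num
  rw [h3]
  refine (Real.rpow_le_rpow (by positivity) h1 (by norm_num)).trans ?_
  rw [Real.mul_rpow (by positivity) (le_trans zero_le_one (one_le_Ci k ν t))]
  refine mul_le_mul_of_nonneg_right ?_ (Real.rpow_nonneg (le_trans zero_le_one (one_le_Ci k ν t)) _)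
  conv_rhs => rw [← Real.rpow_one ((2 : ℝ) ^ n)]
  exact Real.rpow_le_rpow_of_exponent_le (one_le_pow₀ (by norm_num)) (by norm_num)

/-- the numerical part -/
theorem numer2 {n : ℕ} {ε q C c₀ w W T B cv' d N H Ci : ℝ} (hε : 0 < ε) (hε1 : ε ≤ 1)
    (hC : 0 ≤ C) (hc₀ : 0 < c₀) (hw : 1 ≤ w) (hcv : cv' ≤ w) (hT : 0 ≤ T) (hB : 0 ≤ B)
    (hd : 1 ≤ d) (hN : 1 ≤ N) (hH : 1 ≤ H) (hCi : 1 ≤ Ci)
    (hHC : H ≤ 2 ^ n * Ci ^ (1 / 2 : ℝ)) (hW : c₀ * H⁻¹ ≤ W)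
    (h : w * W * T ≤ C * B * cv' * (d * N * H) ^ (ε / 2) *
      (d ^ (1 / 4 : ℝ) * H ^ (-(1 / 2) : ℝ) * N ^ q)) :
    T ≤ (c₀⁻¹ * C * 2 ^ n * 2 ^ n) * B * (d * N * Ci) ^ ε *
      (d ^ (1 / 4 : ℝ) * Ci ^ (1 / 4 : ℝ) * N ^ q) := by
  have hH0 : 0 < H := by linarith
  have hN0 : 0 < N := by linarith
  have hd0 : 0 < d := by linarith
  have hw0 : 0 < w := by linarith
  have hCi0 : 0 < Ci := by linarith
  have hP0 : 0 ≤ (d * N * H) ^ (ε / 2) := Real.rpow_nonneg (by positivity) _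
  have h2n : (1 : ℝ) ≤ 2 ^ n := one_le_pow₀ (by norm_num)
  have h1 : w * (c₀ * H⁻¹) * T ≤ w * W * T := by gcongr
  have h2 : C * B * cv' * (d * N * H) ^ (ε / 2) *
      (d ^ (1 / 4 : ℝ) * H ^ (-(1 / 2) : ℝ) * N ^ q) ≤
      C * B * w * (d * N * H) ^ (ε / 2) *
      (d ^ (1 / 4 : ℝ) * H ^ (-(1 / 2) : ℝ) * N ^ q) := by
    gcongr
  have h3 := (h1.trans h).trans h2
  have h4 : T ≤ c₀⁻¹ * (C * B * (d * N * H) ^ (ε / 2) *
      (d ^ (1 / 4 : ℝ) * H ^ (1 / 2 : ℝ) * N ^ q)) := by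
    have e0 : H ^ (1 / 2 : ℝ) = H * H ^ (-(1 / 2) : ℝ) := by
      conv_rhs => rw [← Real.rpow_one H, ← Real.rpow_mul hH0.le, ← Real.rpow_add hH0]
      norm_num
    have e1 : w * (c₀ * H⁻¹) * T = (w * c₀ * H⁻¹) * T := by ring
    have e2 : C * B * w * (d * N * H) ^ (ε / 2) *
      (d ^ (1 / 4 : ℝ) * H ^ (-(1 / 2) : ℝ) * N ^ q) = (w * c₀ * H⁻¹) *
        (c₀⁻¹ * (C * B * (d * N * H) ^ (ε / 2) *
      (d ^ (1 / 4 : ℝ) * H ^ (1 / 2 : ℝ) * N ^ q))) := by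
      rw [e0]
      field_simp
    rw [e1, e2] at h3
    exact le_of_mul_le_mul_left h3 (by positivity)
  have h5 : H ^ (1 / 2 : ℝ) ≤ 2 ^ n * Ci ^ (1 / 4 : ℝ) := by
    refine (Real.rpow_le_rpow hH0.le hHC (by norm_num)).trans ?_
    rw [Real.mul_rpow (by positivity) (by positivity), ← Real.rpow_mul hCi0.le]
    have e1 : (1 / 2 * (1 / 2) : ℝ) = 1 / 4 := by norm_num
    rw [e1]
    refine mul_le_mul_of_nonneg_right ?_ (by positivity)
    conv_rhs => rw [← Real.rpow_one ((2 : ℝ) ^ n)]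
    exact Real.rpow_le_rpow_of_exponent_le h2n (by norm_num)
  have h6 : (d * N * H) ^ (ε / 2) ≤ 2 ^ n * (d * N * Ci) ^ ε := by
    have e2 : d * N * H ≤ 2 ^ n * (d * N * Ci) := by
      have : Ci ^ (1 / 2 : ℝ) ≤ Ci := by
        conv_rhs => rw [← Real.rpow_one Ci]
        exact Real.rpow_le_rpow_of_exponent_le hCi (by norm_num)
      have : H ≤ 2 ^ n * Ci := hHC.trans (by gcongr)
      calc d * N * H ≤ d * N * (2 ^ n * Ci) := by gcongr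
        _ = _ := by ring
    have hY1 : 1 ≤ d * N * Ci :=
      one_le_mul_of_one_le_of_one_le (one_le_mul_of_one_le_of_one_le hd hN) hCi
    calc (d * N * H) ^ (ε / 2) ≤ (2 ^ n * (d * N * Ci)) ^ (ε / 2) :=
          Real.rpow_le_rpow (by positivity) e2 (by linarith)
      _ = ((2 : ℝ) ^ n) ^ (ε / 2) * (d * N * Ci) ^ (ε / 2) :=
          Real.mul_rpow (by positivity) (by positivity)
      _ ≤ ((2 : ℝ) ^ n) ^ (1 : ℝ) * (d * N * Ci) ^ ε := by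
          apply mul_le_mul
          · exact Real.rpow_le_rpow_of_exponent_le h2n (by linarith)
          · exact Real.rpow_le_rpow_of_exponent_le hY1 (by linarith)
          · positivity
          · positivity
      _ = _ := by rw [Real.rpow_one]
  have hY0 : 0 ≤ (d * N * Ci) ^ ε := Real.rpow_nonneg (by positivity) _
  calc T ≤ c₀⁻¹ * (C * B * (d * N * H) ^ (ε / 2) *
      (d ^ (1 / 4 : ℝ) * H ^ (1 / 2 : ℝ) * N ^ q)) := h4
    _ ≤ c₀⁻¹ * (C * B * (2 ^ n * (d * N * Ci) ^ ε) *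
      (d ^ (1 / 4 : ℝ) * (2 ^ n * Ci ^ (1 / 4 : ℝ)) * N ^ q)) := by
        gcongr
    _ = _ := by ring

end

open scoped Classical in
theorem pf_F_BU (hUP : F_UP) (hWL : F_WL) (hBS : Pool.Agent.H23.BG.F_BS) (hCG : U_CG)
    (hSY : Pool.Agent.H23.LB.T_SY) : Pool.Agent.H23.BG.F_BU := by
  intro n hn ε κ hε hε1 hκ hκε
  obtain ⟨C, hC0, hC⟩ := hBS n hn (ε / 2) κ (by linarith) (by linarith) hκ (by linarith)
  obtain ⟨c₀, hc₀, hc⟩ := hWL n hn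
  refine ⟨c₀⁻¹ * C * 2 ^ n * 2 ^ n, by positivity, fun K _ _ hK f hf χ hχ t B v hB hWt => ?_⟩
  obtain ⟨D⟩ := hSY K f hf
  have hd1 := Pool.Agent.H56.DW.one_le_disc (K := K)
  have hN1 := Pool.Agent.H56.DW.one_le_Nf hf
  have hCi1 := one_le_Ci χ.k χ.ν t
  have hH1 : 1 ≤ HH (Hp2 (cpar χ.k χ.ν t)) := one_le_HH fun v => Hp2_one_le _ v
  have h5 : 1 ≤ |(discr K : ℝ)| * Nf K f * Ci χ.k χ.ν t :=
    one_le_mul_of_one_le_of_one_le (one_le_mul_of_one_le_of_one_le hd1 hN1) hCi1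
  have hX1 : 1 ≤ Real.sqrt (|(discr K : ℝ)| * Nf K f * Ci χ.k χ.ν t) := Real.one_le_sqrt.2 h5
  have hX2 : Real.sqrt (|(discr K : ℝ)| * Nf K f * Ci χ.k χ.ν t) ^ 2 ≤
      3 ^ n * (|(discr K : ℝ)| * Nf K f * HH (Hp2 (cpar χ.k χ.ν t)) ^ 2) := by
    rw [Real.sq_sqrt (by linarith)]
    calc |(discr K : ℝ)| * Nf K f * Ci χ.k χ.ν t ≤
        |(discr K : ℝ)| * Nf K f * (3 ^ n * HH (Hp2 (cpar χ.k χ.ν t)) ^ 2) := by
          have := Ci_le2 hK χ.k χ.ν t χ.real_k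
          gcongr
      _ = _ := by ring
  have key := hC K hK f hf χ hχ D.ι D.M D.reps (cpar χ.k χ.ν t) (Hp2 (cpar χ.k χ.ν t)) _ B v
    (Pw_cpar _ _ _) hX1 hX2 hB hWt
  have hU := hUP K f hf χ D.ι D.M D.reps (cpar χ.k χ.ν t) (Hp2 (cpar χ.k χ.ν t)) t v
    (Pw_cpar _ _ _) (Pool.Agent.H56.DW.Wt_bound hWt)
  have hS : ENNReal.ofReal ‖(torsionOrder K : ℂ) *
      WH K (cpar χ.k χ.ν t) (Hp2 (cpar χ.k χ.ν t)) χ.k χ.ν t *
        ∑' J : NZI K, χ.ψ J.1 * v (Ideal.absNorm J.1) *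
          (Ideal.absNorm J.1 : ℂ) ^ (-(t * I : ℂ))‖ ≤
      ∑ i, ∫⁻ u in Fd K ×ˢ (univ : Set ℝ) ×ˢ An K,
        ENNReal.ofReal ‖∑' x : {x : K // x ∈ D.M i ∧ x ≠ 0}, cg χ (D.M i) x *
          v (Ideal.absNorm (idl K (D.M i) x)) *
            Wg (cpar χ.k χ.ν t) (Hp2 (cpar χ.k χ.ν t)) pb x (yM K (D.M i) u.2.1 (zs true u.1))
              (om true u.2.2)‖ := by
    rw [← hU]
    refine Pool.Agent.H56.DW.sum_int_le _ _ _ _ fun i a => ?_
    have e : ((t : ℂ) * (a.2.1 : ℂ)) = ((t * a.2.1 : ℝ) : ℂ) := by push_cast; rfl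
    rw [norm_mul, norm_mul, norm_mul (ek _ _), Pool.Agent.H56.DW.ec_norm,
      Pool.Agent.H56.DW.ek_norm, e, Complex.norm_exp_ofReal_mul_I, one_mul, one_mul, one_mul]
  have hfin := hS.trans key
  have hcw := Pool.Agent.H56.DW.cw_nonneg (K := K)
  rw [ENNReal.ofReal_le_ofReal_iff (by positivity)] at hfin
  have hnorm : ‖(torsionOrder K : ℂ) *
      WH K (cpar χ.k χ.ν t) (Hp2 (cpar χ.k χ.ν t)) χ.k χ.ν t *
        ∑' J : NZI K, χ.ψ J.1 * v (Ideal.absNorm J.1) *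
          (Ideal.absNorm J.1 : ℂ) ^ (-(t * I : ℂ))‖ = (torsionOrder K : ℝ) *
      ‖WH K (cpar χ.k χ.ν t) (Hp2 (cpar χ.k χ.ν t)) χ.k χ.ν t‖ *
        ‖∑' J : NZI K, χ.ψ J.1 * v (Ideal.absNorm J.1) *
          (Ideal.absNorm J.1 : ℂ) ^ (-(t * I : ℂ))‖ := by
    rw [norm_mul, norm_mul, Complex.norm_natCast]
  rw [hnorm] at hfin
  exact numer2 hε hε1 hC0 hc₀ (Pool.Agent.H56.DW.one_le_tor (K := K))
    (Pool.Agent.H56.DW.cw_le (K := K)) (norm_nonneg _) hB hd1 hN1 hH1 hCi1 (HH_le2 hK χ.k χ.ν t)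
    (hc K hK χ.k χ.ν t χ.norm_zero) hfin

end Pool.Agent.H27.BG
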