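import Mathlib

/-!
# The bound for the integral over all positions: numbers
-/

set_option autoImplicit false
set_option linter.unusedVariables false

namespace Pool.Agent.H27.BG

/-- the exponents -/
theorem expo {κ e x τ s b n : ℝ} (hκ0 : 0 < κ) (hκ1 : κ ≤ 1) (he0 : 0 < e)
    (he : e ≤ 1 / 8) (hx0 : 0 ≤ x) (hs : 0 ≤ s) (hb : 0 ≤ b) (hn : 0 ≤ n) (hτ : τ ≤ n)
    (hx : x ≤ n + s + b) :
    (-τ - s ≤ b → κ * x + τ * (1 / 2 + κ) + e * |τ| + (-τ - s) / 2 ≤
      3 * n + κ * x + e * (s + b) + e * (τ + s + b) - s / 2) ∧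
    (b < -τ - s → x + τ * (1 / 2 + 1) + e * |τ| + 5 / 4 * (-τ - s) - 3 / 4 * b ≤
      3 * n + κ * x + e * (s + b) + e * (τ + s + b) - s / 2) := by
  constructor
  · intro h
    have h1 : |τ| ≤ s + b + n := abs_le.2 ⟨by linarith, by linarith⟩
    have h2 : e * |τ| ≤ e * (s + b + n) := mul_le_mul_of_nonneg_left h1 he0.le
    have h3 : κ * τ ≤ κ * n := mul_le_mul_of_nonneg_left hτ hκ0.le
    have h4 : κ * n ≤ 1 * n := mul_le_mul_of_nonneg_right hκ1 hn
    have h5 : e * n ≤ 1 / 8 * n := mul_le_mul_of_nonneg_right he hn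
    have h6 : 0 ≤ e * (τ + s + b) := mul_nonneg he0.le (by linarith)
    nlinarith
  · intro h
    have h1 : |τ| = -τ := abs_of_neg (by linarith)
    have h2 : 0 ≤ κ * x := mul_nonneg hκ0.le hx0
    have h3 : (1 / 4 - 2 * e) * (τ + s + b) ≤ 0 :=
      mul_nonpos_of_nonneg_of_nonpos (by linarith) (by linarith)
    rw [h1]
    nlinarith

/-- the numerical part of one piece -/
theorem real_piece {n : ℕ} (hn : 0 < n) {κ e X τ d N h : ℝ} (hκ0 : 0 < κ) (hκ1 : κ ≤ 1)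
    (he0 : 0 < e) (he : e ≤ 1 / 8) (hd : 1 ≤ d) (hN : 1 ≤ N) (hh : 1 ≤ h) (hX : 1 ≤ X)
    (hX2 : X ^ 2 ≤ 3 ^ n * (d * N * h ^ 2)) (hτ : τ ≤ n) (σ : ℝ)
    (hσ : σ = if Real.exp (-τ) / (Real.sqrt d * h) ≤ N ^ (1 / 2 : ℝ) then κ else 1) :
    X ^ σ * Real.exp (τ * (1 / 2 + σ)) * Real.exp (e * |τ|) *
      (if Real.exp (-τ) / (Real.sqrt d * h) ≤ N ^ (1 / 2 : ℝ) then
        (Real.exp (-τ) / (Real.sqrt d * h)) ^ (1 / 2 : ℝ) * N ^ (1 / 4 - 1 / (16 * (n : ℝ)))
        else (Real.exp (-τ) / (Real.sqrt d * h)) ^ (5 / 4 : ℝ) *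
          N ^ (-(1 / 8) - 1 / (16 * (n : ℝ)))) ≤
      Real.exp (3 * n) * X ^ κ * (d * N * h) ^ e * ((d * N * h) ^ e * Real.exp (e * τ)) *
        (d ^ (-(1 / 4) : ℝ) * h ^ (-(1 / 2) : ℝ) * N ^ (1 / 4 - 1 / (16 * (n : ℝ)))) := by
  have hd0 : 0 < d := by linarith
  have hN0 : 0 < N := by linarith
  have hh0 : 0 < h := by linarith
  have hX0 : 0 < X := by linarith
  have hn1 : (1 : ℝ) ≤ n := by exact_mod_cast hn
  set x : ℝ := Real.log X with hx
  set δ : ℝ := Real.log d with hδ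
  set η : ℝ := Real.log h with hη
  set b : ℝ := Real.log N / 2 with hb
  have hx0 : 0 ≤ x := Real.log_nonneg hX
  have hδ0 : 0 ≤ δ := Real.log_nonneg hd
  have hη0 : 0 ≤ η := Real.log_nonneg hh
  have hb0 : 0 ≤ b := div_nonneg (Real.log_nonneg hN) (by norm_num)
  have eX : X = Real.exp x := (Real.exp_log hX0).symm
  have ed : d = Real.exp δ := (Real.exp_log hd0).symm
  have eh : h = Real.exp η := (Real.exp_log hh0).symm
  have eN : N = Real.exp (2 * b) := by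
    rw [hb]
    have : 2 * (Real.log N / 2) = Real.log N := by ring
    rw [this, Real.exp_log hN0]
  have hsd : Real.sqrt d = Real.exp (δ / 2) := by
    rw [ed, Real.sqrt_eq_rpow, ← Real.exp_mul]
    congr 1
    ring
  have hV : Real.exp (-τ) / (Real.sqrt d * h) = Real.exp (-τ - (δ / 2 + η)) := by
    rw [hsd]
    conv_lhs => rw [eh]
    rw [← Real.exp_add, ← Real.exp_sub]
  have hNh : N ^ (1 / 2 : ℝ) = Real.exp b := by
    conv_lhs => rw [eN]
    rw [← Real.exp_mul]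
    congr 1
    ring
  have hxs : x ≤ n + (δ / 2 + η) + b := by
    have h1 : Real.log (X ^ 2) ≤ Real.log (3 ^ n * (d * N * h ^ 2)) :=
      Real.log_le_log (by positivity) hX2
    rw [Real.log_pow, Real.log_mul (by positivity) (by positivity), Real.log_pow,
      Real.log_mul (by positivity) (by positivity), Real.log_mul (by positivity) (by positivity),
      Real.log_pow] at h1
    have h2 : Real.log 3 ≤ 2 := by
      have := Real.log_le_sub_one_of_pos (show (0 : ℝ) < 3 by norm_num)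
      linarith
    have h3 : (n : ℝ) * Real.log 3 ≤ n * 2 := mul_le_mul_of_nonneg_left h2 (by linarith)
    push_cast at h1
    rw [← hx, ← hδ, ← hη] at h1
    have h4 : Real.log N = 2 * b := by
      rw [hb]
      ring
    rw [h4] at h1
    linarith
  obtain ⟨c1, c2⟩ := expo (κ := κ) (e := e) (x := x) (τ := τ) (s := δ / 2 + η) (b := b)
    (n := (n : ℝ)) hκ0 hκ1 he0 he hx0 (by positivity) hb0 (by linarith) hτ hxs
  have hR : Real.exp (3 * n + κ * x + e * ((δ / 2 + η) + b) + e * (τ + (δ / 2 + η) + b) -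
      (δ / 2 + η) / 2) * N ^ (1 / 4 - 1 / (16 * (n : ℝ))) ≤
      Real.exp (3 * n) * X ^ κ * (d * N * h) ^ e * ((d * N * h) ^ e * Real.exp (e * τ)) *
        (d ^ (-(1 / 4) : ℝ) * h ^ (-(1 / 2) : ℝ) * N ^ (1 / 4 - 1 / (16 * (n : ℝ)))) := by
    have hQ : (d * N * h) ^ e = Real.exp (e * (δ + 2 * b + η)) := by
      conv_lhs => rw [ed, eN, eh]
      rw [← Real.exp_add, ← Real.exp_add, ← Real.exp_mul]
      congr 1
      ring
    have hXk : X ^ κ = Real.exp (κ * x) := by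
      conv_lhs => rw [eX]
      rw [← Real.exp_mul]
      congr 1
      ring
    have hdq : d ^ (-(1 / 4) : ℝ) = Real.exp (-(1 / 4) * δ) := by
      conv_lhs => rw [ed]
      rw [← Real.exp_mul]
      congr 1
      ring
    have hhq : h ^ (-(1 / 2) : ℝ) = Real.exp (-(1 / 2) * η) := by
      conv_lhs => rw [eh]
      rw [← Real.exp_mul]
      congr 1
      ring
    rw [hQ, hXk, hdq, hhq, ← mul_assoc, ← Real.exp_add, ← Real.exp_add, ← Real.exp_add,
      ← Real.exp_add, ← Real.exp_add, ← Real.exp_add]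
    refine mul_le_mul_of_nonneg_right (Real.exp_le_exp.2 ?_) (by positivity)
    nlinarith [mul_nonneg he0.le hδ0, mul_nonneg he0.le hb0]
  refine le_trans ?_ hR
  by_cases hc : Real.exp (-τ) / (Real.sqrt d * h) ≤ N ^ (1 / 2 : ℝ)
  · rw [if_pos hc] at hσ ⊢
    rw [hV, hNh] at hc
    have hc' := Real.exp_le_exp.1 hc
    have h1 := c1 hc'
    have hXk : X ^ σ = Real.exp (κ * x) := by
      rw [hσ]
      conv_lhs => rw [eX]
      rw [← Real.exp_mul]
      congr 1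
      ring
    rw [hXk, hV, ← Real.exp_mul, hσ, ← mul_assoc, ← Real.exp_add, ← Real.exp_add,
      ← Real.exp_add]
    refine mul_le_mul_of_nonneg_right (Real.exp_le_exp.2 ?_) (by positivity)
    linarith
  · rw [if_neg hc] at hσ ⊢
    rw [hV, hNh, not_le] at hc
    have hc' := Real.exp_lt_exp.1 hc
    have h1 := c2 hc'
    have hN8 : N ^ (-(1 / 8) - 1 / (16 * (n : ℝ))) =
        Real.exp (-(3 / 4) * b) * N ^ (1 / 4 - 1 / (16 * (n : ℝ))) := by
      have h2 : Real.exp (-(3 / 4) * b) = N ^ (-(3 / 8) : ℝ) := by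
        conv_rhs => rw [eN]
        rw [← Real.exp_mul]
        congr 1
        ring
      rw [h2, ← Real.rpow_add hN0]
      congr 1
      ring
    have hXk : X ^ σ = Real.exp x := by
      rw [hσ, Real.rpow_one, ← eX]
    rw [hXk, hV, ← Real.exp_mul, hσ, hN8, ← mul_assoc, ← mul_assoc, ← Real.exp_add,
      ← Real.exp_add, ← Real.exp_add, ← Real.exp_add]
    refine mul_le_mul_of_nonneg_right (Real.exp_le_exp.2 ?_) (by positivity)
    linarith

/-- the last numerical step -/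
theorem fin_num {n : ℕ} {ε κ X d N h : ℝ} (hε : 0 < ε) (hε1 : ε ≤ 1) (hκ0 : 0 < κ)
    (hκ : κ ≤ ε / 16) (hX : 1 ≤ X) (hd : 1 ≤ d) (hN : 1 ≤ N) (hh : 1 ≤ h)
    (hX2 : X ^ 2 ≤ 3 ^ n * (d * N * h ^ 2)) :
    (d * N * h) ^ (ε / 16) * (X ^ κ * (d * N * h) ^ (ε / 16) * (d * N * h) ^ (ε / 16)) ≤
      3 ^ n * (d * N * h) ^ (ε / 2) := by
  have hX0 : 0 < X := by linarith
  set Q : ℝ := d * N * h with hQ
  have hQ1 : 1 ≤ Q := by
    rw [hQ]
    exact one_le_mul_of_one_le_of_one_le (one_le_mul_of_one_le_of_one_le hd hN) hh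
  have hQ0 : 0 < Q := by linarith
  have h3 : (1 : ℝ) ≤ 3 ^ n := one_le_pow₀ (by norm_num)
  have h1 : X ≤ 3 ^ n * Q := by
    refine le_of_sq_le_sq ?_ (by positivity)
    refine hX2.trans ?_
    have e : (3 ^ n * Q) ^ 2 = 3 ^ n * (d * N * h ^ 2) * (3 ^ n * (d * N)) := by
      rw [hQ]
      ring
    rw [e]
    refine le_mul_of_one_le_right (by positivity) ?_
    exact one_le_mul_of_one_le_of_one_le h3 (one_le_mul_of_one_le_of_one_le hd hN)
  have h2 : X ^ κ ≤ 3 ^ n * Q ^ κ := by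
    refine (Real.rpow_le_rpow hX0.le h1 hκ0.le).trans ?_
    rw [Real.mul_rpow (by positivity) hQ0.le]
    refine mul_le_mul_of_nonneg_right ?_ (by positivity)
    calc ((3 : ℝ) ^ n) ^ κ ≤ ((3 : ℝ) ^ n) ^ (1 : ℝ) :=
          Real.rpow_le_rpow_of_exponent_le h3 (by linarith)
      _ = 3 ^ n := Real.rpow_one _
  calc Q ^ (ε / 16) * (X ^ κ * Q ^ (ε / 16) * Q ^ (ε / 16))
      ≤ Q ^ (ε / 16) * ((3 ^ n * Q ^ κ) * Q ^ (ε / 16) * Q ^ (ε / 16)) := by
        gcongr
    _ = 3 ^ n * Q ^ (ε / 16 + (κ + ε / 16 + ε / 16)) := by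
        rw [Real.rpow_add hQ0, Real.rpow_add hQ0, Real.rpow_add hQ0]
        ring
    _ ≤ 3 ^ n * Q ^ (ε / 2) := by
        refine mul_le_mul_of_nonneg_left ?_ (by positivity)
        exact Real.rpow_le_rpow_of_exponent_le hQ1 (by linarith)

end Pool.Agent.H27.BG
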