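import Pool.Agent.H23.BG.TargetsF
import Pool.Agent.H23.BG.TargetsP
import Pool.Agent.H29.DW.BSb
import Pool.Agent.H27.BG.BSn

/-!
# The bound for the integral over all positions: one piece
-/

set_option autoImplicit false
set_option linter.unusedVariables false
set_option linter.unusedSectionVars false

open NumberField NumberField.InfinitePlace NumberField.Units
  NumberField.Units.dirichletUnitTheorem MeasureTheory Set Filter Complex
open scoped nonZeroDivisors ENNReal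

namespace Pool.Agent.H27.BG

open Pool.Agent.H25.HK Pool.Agent.H23.LB Pool.Agent.H23.LC Pool.Agent.H29.DW
  Pool.Agent.H23.BG
open Pool.Agent.H28.RC (Rep ft idl)
open Pool.Agent.H29.TC (dvs cq LC Gn MC)

theorem swapE {α : Type} [MeasurableSpace α] {ι : Type} [Fintype ι] (μ : Measure α) [SFinite μ]
    {ρ : ℝ → ℝ≥0∞} {G : ι → ℝ → α → ℝ≥0∞} (hρ : Measurable ρ) (hρt : ∀ w, ρ w ≠ ⊤)
    (hG : ∀ c, Measurable (fun a : ℝ × α => G c a.1 a.2)) {E : ℝ≥0∞} (hE : E ≠ ⊤) :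
    ∑ c, ∫⁻ u, (E * ∫⁻ w : ℝ, ρ w * G c w u) ∂μ = E * ∫⁻ w : ℝ, ρ w * ∑ c, (∫⁻ u, G c w u ∂μ) := by
  have hm1 : ∀ c, Measurable (fun a : ℝ × α => ρ a.1 * G c a.1 a.2) := fun c =>
    (hρ.comp measurable_fst).mul (hG c)
  have hm4 : ∀ c, Measurable (fun w : ℝ => ∫⁻ u, G c w u ∂μ) := fun c =>
    (hG c).lintegral_prod_right' (ν := μ)
  have e1 : ∀ c, ∫⁻ u, (∫⁻ w : ℝ, ρ w * G c w u) ∂μ = ∫⁻ w : ℝ, ρ w * (∫⁻ u, G c w u ∂μ) := by
    intro c
    have e2 : ∫⁻ u, (∫⁻ w : ℝ, ρ w * G c w u) ∂μ = ∫⁻ w : ℝ, (∫⁻ u, ρ w * G c w u ∂μ) :=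
      lintegral_lintegral_swap (μ := μ) (ν := volume) (f := fun u w => ρ w * G c w u)
        ((hm1 c).comp measurable_swap).aemeasurable
    rw [e2]
    exact lintegral_congr fun w => lintegral_const_mul' (ρ w) (fun u => G c w u) (hρt w)
  calc _ = ∑ c, E * ∫⁻ u, (∫⁻ w : ℝ, ρ w * G c w u) ∂μ :=
        Finset.sum_congr rfl fun c _ => lintegral_const_mul' _ _ hE
    _ = E * ∑ c, ∫⁻ w : ℝ, ρ w * (∫⁻ u, G c w u ∂μ) := by
        rw [Finset.mul_sum]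
        exact Finset.sum_congr rfl fun c _ => by rw [e1]
    _ = E * ∫⁻ w : ℝ, ρ w * ∑ c, (∫⁻ u, G c w u ∂μ) := by
        have h5 := lintegral_finsetSum (μ := (volume : Measure ℝ)) Finset.univ
          (f := fun c w => ρ w * (∫⁻ u, G c w u ∂μ)) (fun c _ => hρ.mul (hm4 c))
        rw [← h5]
        exact congrArg (fun t => E * t) (lintegral_congr fun w => (Finset.mul_sum _ _ _).symm)

section

variable {K : Type} [Field K] [NumberField K]

open scoped Classical in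
theorem Sp'_int2 (hFD : T_FD) (τ₁ : ℝ) {f : logSpace K × ℝ × (InfinitePlace K → ℝ) → ℝ≥0∞}
    (hf : Measurable f) : ∫⁻ u in Sp' K τ₁, f u =
      ∫⁻ τ in Icc τ₁ (τ₁ + 1), ∫⁻ z in Fd K, ∫⁻ θ in An K, f (z, τ, θ) := by
  rw [Sp'_int hFD τ₁ hf]
  have h1 : Measurable (fun p : logSpace K × ℝ => ∫⁻ θ in An K, f (p.1, p.2, θ)) := by
    have h2 : Measurable (fun q : (logSpace K × ℝ) × (InfinitePlace K → ℝ) =>
        f (q.1.1, q.1.2, q.2)) := hf.comp (by fun_prop)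
    exact h2.lintegral_prod_right' (ν := volume.restrict (An K))
  exact lintegral_lintegral_swap h1.aemeasurable

open scoped Classical in
theorem sum_int2 (hFD : T_FD) {ι : Type} [Fintype ι] (τ₁ : ℝ)
    {f : ι → logSpace K × ℝ × (InfinitePlace K → ℝ) → ℝ≥0∞} (hf : ∀ c, Measurable (f c)) :
    ∑ c, ∫⁻ u in Sp' K τ₁, f c u =
      ∫⁻ τ in Icc τ₁ (τ₁ + 1), ∑ c, ∫⁻ z in Fd K, ∫⁻ θ in An K, f c (z, τ, θ) := by
  have h1 : ∀ c, Measurable (fun τ : ℝ => ∫⁻ z in Fd K, ∫⁻ θ in An K, f c (z, τ, θ)) := by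
    intro c
    have h2 : Measurable (fun q : (ℝ × logSpace K) × (InfinitePlace K → ℝ) =>
        f c (q.1.2, q.1.1, q.2)) := (hf c).comp (by fun_prop)
    have h3 : Measurable (fun q : ℝ × logSpace K => ∫⁻ θ in An K, f c (q.2, q.1, θ)) :=
      h2.lintegral_prod_right' (ν := volume.restrict (An K))
    exact h3.lintegral_prod_right' (ν := volume.restrict (Fd K))
  rw [lintegral_finsetSum _ (fun c _ => h1 c)]
  exact Finset.sum_congr rfl fun c _ => Sp'_int2 hFD τ₁ (hf c)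

end

open scoped Classical in
/-- one piece -/
theorem piece (hIN : F_IN) (hBB : P_BB) (hPB : V_PB) (hTH : T_TH) (hYC : T_YC) (hFD : T_FD)
    (hCG : U_CG) :
    ∀ n : ℕ, 0 < n → ∀ ε : ℝ, 0 < ε → ε ≤ 1 → ∃ C : ℝ, 0 ≤ C ∧ ∀ κ : ℝ, 0 < κ → κ ≤ 1 →
    ∀ (K : Type) [Field K] [NumberField K], Module.finrank ℚ K = n → ∀ f : Ideal (𝓞 K),
    f ≠ ⊥ → ∀ χ : HG K f, PrG f χ → ∀ (ι : Type) [Fintype ι] (M : ι → FI K), Reps K M →
    ∀ (cp : InfinitePlace K → ℂ) (H : InfinitePlace K → ℝ) (X B : ℝ) (v : ℝ → ℂ), Pw cp H →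
    1 ≤ X → 0 ≤ B → Wt κ X B v → ∀ τ₁ σ : ℝ, (σ = κ ∨ σ = 1) →
    ∑ c, ∫⁻ u in Sp' K τ₁,
      ENNReal.ofReal ‖∑' x : {x : K // x ∈ M c ∧ x ≠ 0}, cg χ (M c) x *
        v (Ideal.absNorm (idl K (M c) x)) *
          Wg cp H pb x (yM K (M c) u.2.1 (zs true u.1)) (om true u.2.2)‖ ≤
    ENNReal.ofReal (C * B * cw K * |(discr K : ℝ)| ^ (1 / 2 : ℝ) *
      (X ^ σ * Real.exp (τ₁ * (1 / 2 + σ)) *
        (|(discr K : ℝ)| * Nf K f * HH H * Real.exp |τ₁|) ^ ε *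
        Psi n (Nf K f) (Vt K H τ₁))) := by
  intro n hn0 ε hε hε1
  obtain ⟨CT, hCT, hBB'⟩ := hBB n hn0 ε hε hε1
  obtain ⟨CB, hCB, hPB'⟩ := hPB (2 * n + 4)
  set J : ℝ≥0∞ := ∫⁻ w : ℝ, ENNReal.ofReal (Real.exp (-w ^ 2 / 4) *
    ((CB * (4 + 2 * |w|) ^ (2 * n + 4)) ^ n)) with hJ
  have hJfin : J < ⊤ := by
    have h1 := gauss_poly ((2 * n + 4) * n)
    have h2 : J = ENNReal.ofReal (CB ^ n) * ∫⁻ w : ℝ, ENNReal.ofReal
        (Real.exp (-w ^ 2 / 4) * (4 + 2 * |w|) ^ ((2 * n + 4) * n)) := by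
      rw [hJ, ← lintegral_const_mul' _ _ ENNReal.ofReal_ne_top]
      refine lintegral_congr fun w => ?_
      rw [← ENNReal.ofReal_mul (by positivity), mul_pow, ← pow_mul]
      congr 1
      ring
    rw [h2]
    exact ENNReal.mul_lt_top ENNReal.ofReal_lt_top h1
  refine ⟨Real.exp (3 / 2) * CT * J.toReal, by positivity, ?_⟩
  intro κ hκ0 hκ1 K _ _ hn f hf χ hχ ι _ M hM cp H X B v hP hX hB hv τ₁ σ hσ
  have hσ0 : 0 < σ := by rcases hσ with rfl | rfl <;> linarith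
  have hσ1 : σ ≤ 1 := by rcases hσ with rfl | rfl <;> linarith
  have hH : ∀ v, 1 ≤ H v := fun v => hP.one v
  have hX0 : 0 < X := lt_of_lt_of_le one_pos hX
  have hcg1 : ∀ c, ∀ x ∈ M c, ‖cg χ (M c) x‖ ≤ 1 := fun c => (hCG K f χ (M c) hf (hM.1 c)).2.1
  set S := Sp' K τ₁ with hS
  have hSm : MeasurableSet S := Sp'_meas hFD τ₁
  set ρ : ℝ → ℝ≥0∞ := fun w => ENNReal.ofReal (Real.exp (-w ^ 2 / 4)) with hρ
  have hρm : Measurable ρ := by
    rw [hρ]
    fun_prop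
  set G : ι → ℝ → logSpace K × ℝ × (InfinitePlace K → ℝ) → ℝ≥0∞ := fun c w u =>
    ENNReal.ofReal ‖Gw (M c) cp H (cg χ (M c)) true σ w u‖ with hG
  have hGm : ∀ c, Measurable (fun a : ℝ × (logSpace K × ℝ × (InfinitePlace K → ℝ)) =>
      G c a.1 a.2) := fun c =>
    ENNReal.measurable_ofReal.comp
      (Gw_measurable hTH hYC (M c) (hM.1 c) hH (cg χ (M c)) true σ).norm
  have hm1 : ∀ c, Measurable (fun a : ℝ × (logSpace K × ℝ × (InfinitePlace K → ℝ)) =>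
      ρ a.1 * G c a.1 a.2) := fun c => (hρm.comp measurable_fst).mul (hGm c)
  have hGm' : ∀ w c, Measurable (fun u => G c w u) := fun w c =>
    Measurable.comp (g := fun a : ℝ × (logSpace K × ℝ × (InfinitePlace K → ℝ)) => G c a.1 a.2)
      (f := fun u => (w, u)) (hGm c) measurable_prodMk_left
  set E : ℝ≥0∞ := ENNReal.ofReal (B * X ^ σ * (Real.exp (3 / 2) *
    Real.exp (τ₁ * (1 / 2 + σ)))) with hE
  -- step 1: the integral representation
  have h1 : ∀ c, ∀ u ∈ S, ENNReal.ofReal ‖∑' x : {x : K // x ∈ M c ∧ x ≠ 0}, cg χ (M c) x *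
        v (Ideal.absNorm (idl K (M c) x)) *
          Wg cp H pb x (yM K (M c) u.2.1 (zs true u.1)) (om true u.2.2)‖ ≤
      E * ∫⁻ w : ℝ, ρ w * G c w u := by
    intro c u hu
    refine (hIN K (M c) cp H (cg χ (M c)) true κ X B v (hM.1 c) hP ⟨1, hcg1 c⟩ hκ0 hκ1 hX0 hB hv
      (zs true u.1) u.2.1 u.2.2 σ hσ).trans ?_
    refine mul_le_mul' (ENNReal.ofReal_le_ofReal ?_) (le_of_eq (lintegral_congr fun w => ?_))
    · refine mul_le_mul_of_nonneg_left ?_ (by positivity)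
      rw [← Real.exp_add]
      apply Real.exp_le_exp.2
      have h2 : u.2.1 ≤ τ₁ + 1 := hu.2.1.2
      nlinarith
    · rw [hρ, hG]
      simp only
      rw [← ENNReal.ofReal_mul (Real.exp_pos _).le]
      rfl
  -- step 2: the order of the integrals
  have h2 : ∑ c, ∫⁻ u in S, ENNReal.ofReal ‖∑' x : {x : K // x ∈ M c ∧ x ≠ 0}, cg χ (M c) x *
        v (Ideal.absNorm (idl K (M c) x)) *
          Wg cp H pb x (yM K (M c) u.2.1 (zs true u.1)) (om true u.2.2)‖ ≤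
      E * ∫⁻ w : ℝ, ρ w * ∑ c, ∫⁻ u in S, G c w u := by
    refine (Finset.sum_le_sum fun c _ => setLIntegral_mono' hSm (h1 c)).trans (le_of_eq ?_)
    exact swapE (volume.restrict S) hρm (fun w => ENNReal.ofReal_ne_top) hGm
      ENNReal.ofReal_ne_top
  -- step 3: the bound of Burgess
  set R₁ : ℝ := cw K * |(discr K : ℝ)| ^ (1 / 2 : ℝ) *
      (|(discr K : ℝ)| * Nf K f * HH H * Real.exp |τ₁|) ^ ε *
        Psi n (Nf K f) (Vt K H τ₁) with hR₁
  have h4 : ∀ w : ℝ, ∑ c, ∫⁻ u in S, G c w u ≤ ENNReal.ofReal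
      ((CB * (4 + 2 * |w|) ^ (2 * n + 4)) ^ n * (CT * R₁)) := by
    intro w
    have hB' : 1 ≤ CB * (4 + 2 * |w|) ^ (2 * n + 4) := by
      have h5 : (1 : ℝ) ≤ (4 + 2 * |w|) ^ (2 * n + 4) :=
        one_le_pow₀ (by linarith [abs_nonneg w])
      exact one_le_mul_of_one_le_of_one_le hCB h5
    have hbm : ∀ v, Bmp 2 (CB * (4 + 2 * |w|) ^ (2 * n + 4))
        (pl H (1 / 2 + σ + w * I) v) := fun v =>
      (pl_bmp hCB hPB' hH hσ0 hσ1 w v).mono (by omega) le_rfl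
    have h5 := hBB' K hn f hf χ hχ ι M hM cp H (pl H (1 / 2 + σ + w * I))
      (CB * (4 + 2 * |w|) ^ (2 * n + 4)) τ₁ hP hB' hbm
    rw [hS, sum_int2 hFD τ₁ (fun c => hGm' w c)]
    refine h5.trans (ENNReal.ofReal_le_ofReal (le_of_eq ?_))
    rw [hR₁]
    ring
  refine h2.trans ?_
  have hPsi : 0 ≤ Psi n (Nf K f) (Vt K H τ₁) := by
    have hN : 0 ≤ Nf K f := by unfold Nf; positivity
    have hV : 0 ≤ Vt K H τ₁ := by
      have := one_le_HH hH
      unfold Vt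
      positivity
    unfold Psi
    split_ifs <;> positivity
  have hHH := one_le_HH hH
  have hNf : 0 ≤ Nf K f := by unfold Nf; positivity
  have hcw : 0 ≤ cw K := by unfold cw; positivity
  have hR₁0 : 0 ≤ R₁ := by
    rw [hR₁]
    positivity
  calc E * ∫⁻ w : ℝ, ρ w * ∑ c, ∫⁻ u in S, G c w u
      ≤ E * ∫⁻ w : ℝ, ENNReal.ofReal (CT * R₁) * ENNReal.ofReal (Real.exp (-w ^ 2 / 4) *
          ((CB * (4 + 2 * |w|) ^ (2 * n + 4)) ^ n)) := by
        refine mul_le_mul' le_rfl (lintegral_mono fun w => ?_)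
        refine (mul_le_mul' le_rfl (h4 w)).trans (le_of_eq ?_)
        rw [hρ]
        simp only
        rw [← ENNReal.ofReal_mul (Real.exp_pos _).le, ← ENNReal.ofReal_mul (by positivity)]
        congr 1
        ring
    _ = E * (ENNReal.ofReal (CT * R₁) * J) := by
        rw [lintegral_const_mul' _ _ ENNReal.ofReal_ne_top]
    _ = ENNReal.ofReal ((B * X ^ σ * (Real.exp (3 / 2) *
          Real.exp (τ₁ * (1 / 2 + σ)))) * ((CT * R₁) * J.toReal)) := by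
        conv_lhs => rw [← ENNReal.ofReal_toReal hJfin.ne]
        rw [hE, ← ENNReal.ofReal_mul (by positivity), ← ENNReal.ofReal_mul (by positivity)]
    _ = _ := by
        congr 1
        rw [hR₁]
        ring

end Pool.Agent.H27.BG
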